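import Mathlib
import Pool.Agent.QCube.Main

set_option autoImplicit false

namespace Pool.Agent.Results.MP_33d9ce_co.LogLowerBound

open Finset Filter Topology

/-- the degree of a vertex -/
noncomputable def deg {V : Type} (G : SimpleGraph V) (v : V) : ℕ := (G.neighborSet v).ncard

/-- `G` contains a spanning copy of the `n`-dimensional hypercube -/
def ContainsCube (n : ℕ) (G : SimpleGraph (Fin (2 ^ n))) : Prop :=
  ∃ f : (Fin n → Bool) → Fin (2 ^ n), Function.Injective f ∧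
    ∀ x y : Fin n → Bool, hammingDist x y = 1 → G.Adj (f x) (f y)

/-- `u ≥ 1` is admissible: every graph on `2 ^ n` vertices with minimum degree greater than
`2 ^ n - u` contains the hypercube -/
def Admissible (n u : ℕ) : Prop :=
  1 ≤ u ∧ ∀ G : SimpleGraph (Fin (2 ^ n)), (∀ v, 2 ^ n < deg G v + u) → ContainsCube n G

/-- the threshold `u_n`: the largest admissible `u` -/
noncomputable def uThr (n : ℕ) : ℕ := sSup {u : ℕ | Admissible n u}

theorem contains_of_deg : ∃ n0 : ℕ, ∀ n : ℕ, n0 ≤ n → ∀ G : SimpleGraph (Fin (2 ^ n)),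
    (∀ v, (1 - Real.log n / (50 * n)) * (2 : ℝ) ^ n ≤ (deg G v : ℝ)) → ContainsCube n G := by
  classical
  obtain ⟨n0, h⟩ := Pool.Agent.QCube.hypercube_log
  refine ⟨n0, fun n hn G hG => ?_⟩
  have hdeg : ∀ v, deg G v = G.degree v := by
    intro v
    rw [deg, Set.ncard_eq_toFinset_card', ← SimpleGraph.card_neighborSet_eq_degree,
      Set.toFinset_card]
  obtain ⟨f, hf⟩ := h n hn G (fun v => by
    have := hG v
    rw [hdeg v] at this
    convert this)
  exact ⟨f, f.injective, hf⟩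

theorem bdd (n : ℕ) (hn : 1 ≤ n) : BddAbove {u : ℕ | Admissible n u} := by
  refine ⟨2 ^ n, fun u hu => ?_⟩
  by_contra hlt
  push Not at hlt
  obtain ⟨f, _, hf⟩ := hu.2 ⊥ (fun v => by omega)
  have h1 : hammingDist (fun _ : Fin n => false)
      (Function.update (fun _ : Fin n => false) ⟨0, hn⟩ true) = 1 := by
    classical
    rw [hammingDist, card_eq_one]
    refine ⟨⟨0, hn⟩, ?_⟩
    ext i
    simp only [mem_filter, mem_univ, true_and, mem_singleton]
    by_cases hi : i = ⟨0, hn⟩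
    · subst hi; simp
    · simp [hi]
  exact (hf _ _ h1)

/-- (1) For all large `n`, every graph on `2 ^ n` vertices with minimum degree at least
`(1 - log n / (50 n)) 2 ^ n` contains `Q_n`.  (2) `u_n ≥ (log n / (50 n)) 2 ^ n` for all large `n`.
(3) `u_n / (2 ^ n / n)` tends to infinity. -/
theorem result :
    (∃ n0 : ℕ, ∀ n : ℕ, n0 ≤ n → ∀ G : SimpleGraph (Fin (2 ^ n)),
      (∀ v, (1 - Real.log n / (50 * n)) * (2 : ℝ) ^ n ≤ (deg G v : ℝ)) → ContainsCube n G) ∧
    (∃ n0 : ℕ, ∀ n : ℕ, n0 ≤ n →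
      Admissible n (uThr n) ∧ Real.log n / (50 * n) * (2 : ℝ) ^ n ≤ (uThr n : ℝ)) ∧
    Tendsto (fun n : ℕ => (uThr n : ℝ) / ((2 : ℝ) ^ n / n)) atTop atTop := by
  have key : ∃ n0 : ℕ, ∀ n : ℕ, n0 ≤ n →
      Admissible n (uThr n) ∧ Real.log n / (50 * n) * (2 : ℝ) ^ n ≤ (uThr n : ℝ) := by
    obtain ⟨n0, h0⟩ := contains_of_deg
    refine ⟨max n0 2, fun n hn => ?_⟩
    have hn0 : n0 ≤ n := le_trans (le_max_left _ _) hn
    have hn2 : 2 ≤ n := le_trans (le_max_right _ _) hn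
    have hnR : (2 : ℝ) ≤ n := by exact_mod_cast hn2
    have hlog : 0 < Real.log n := Real.log_pos (by linarith)
    set x : ℝ := Real.log n / (50 * n) * (2 : ℝ) ^ n with hx
    have hx0 : 0 < x := by positivity
    have hadm : Admissible n ⌈x⌉₊ := by
      refine ⟨Nat.one_le_iff_ne_zero.2 (by
        rw [Ne, Nat.ceil_eq_zero]; push Not; exact hx0), fun G hG => ?_⟩
      refine h0 n hn0 G (fun v => ?_)
      have h1 : (2 : ℝ) ^ n + 1 ≤ (deg G v : ℝ) + (⌈x⌉₊ : ℝ) := by
        have := hG v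
        have h2 : 2 ^ n + 1 ≤ deg G v + ⌈x⌉₊ := this
        exact_mod_cast h2
      have h3 : (⌈x⌉₊ : ℝ) < x + 1 := Nat.ceil_lt_add_one hx0.le
      have h4 : (1 - Real.log n / (50 * n)) * (2 : ℝ) ^ n = (2 : ℝ) ^ n - x := by
        rw [hx]; ring
      rw [h4]
      linarith
    have hb := bdd n (by omega)
    have hne : {u : ℕ | Admissible n u}.Nonempty := ⟨_, hadm⟩
    refine ⟨Nat.sSup_mem hne hb, ?_⟩
    have h5 : ⌈x⌉₊ ≤ uThr n := le_csSup hb hadm
    exact (Nat.le_ceil x).trans (by exact_mod_cast h5)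
  refine ⟨contains_of_deg, key, ?_⟩
  obtain ⟨n0, h0⟩ := key
  have h1 : Tendsto (fun n : ℕ => Real.log (n : ℝ) / 50) atTop atTop :=
    (Real.tendsto_log_atTop.comp tendsto_natCast_atTop_atTop).atTop_div_const (by norm_num)
  refine tendsto_atTop_mono' atTop ?_ h1
  filter_upwards [eventually_ge_atTop (max n0 2)] with n hn
  have hn0 : n0 ≤ n := le_trans (le_max_left _ _) hn
  have hn2 : 2 ≤ n := le_trans (le_max_right _ _) hn
  have hnR : (2 : ℝ) ≤ n := by exact_mod_cast hn2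
  have h2 := (h0 n hn0).2
  have hpos : (0 : ℝ) < (2 : ℝ) ^ n / n := by positivity
  rw [le_div_iff₀ hpos]
  refine le_trans (le_of_eq ?_) h2
  field_simp

end Pool.Agent.Results.MP_33d9ce_co.LogLowerBound
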